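import Pool.Agent.X288.CX.Aut

/-!
# Tate's conjecture with Artin twists, for varieties whose transcendental part is partly automorphic

Let `X` be a smooth projective variety over a number field `K`.  The cohomology `H²(X)(1)` contains the
Artin representation `A = NS(X_{K̄}) ⊗ ℂ`.  Suppose that the rest is the sum of an automorphic part
`⊕ a_i π_i`, with pairwise different unitary cuspidal representations `π_i` of `GL_{n_i}(𝔸_K)`, tempered at
almost all primes, and of an unknown part of dimension `u`.  For an Artin representation `ρ` of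
`Gal(K̄/K)` let `L_2(X ⊗ ρ, s)` be the `L`-function of `H²(X) ⊗ ρ`; for the permutation representation on
`Hom_K(F, K̄)` this is `L_2(X_F, s)`, for the extension `F` of `K`, and so the `ρ` give all extensions of
`K`.  The order of the pole at `s = 2` should be `dim (A ⊗ ρ)^{Gal(K̄/K)}`, and for the `ρ` of an extension
`F` this is the rank of `NS(X / F)`; at the other points of the line `Re s = 2` there should be no pole and no
zero.  This is not known, also if `H²(X)` is automorphic over `K` (`u = 0`), since the base change of the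
`π_i` to extensions that are not solvable is not known, and the `L`-functions `L(π_i ⊗ ρ, s)` need not have
a continuation.

**The theorem**: Bessel's inequality for the defects of Tate's formula, for all `ρ` and all heights
together, with the constant `(√(∑ a_i²) + u)²`.  In particular, if the transcendental part of `H²(X)` is one
cuspidal representation of `GL_n(𝔸_K)`, then Tate's formula holds for all irreducible Artin
representations `ρ` (for which there is a continuation) with at most one exception `ρ₀`, of dimension at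
most `n`, and the defect of `ρ₀` is `1` or `-1`.

Examples over `K = ℚ` with `u = 0`: `E × E` and `E × E'` for elliptic curves without complex multiplication,
not isogenous up to twist (one cuspidal representation of dimension 3 resp. 4, by Gelbart, Jacquet and
Ramakrishnan), products of `g` such curves (`∑ a_i² = g (g - 1) / 2`), Hilbert modular surfaces, K3
surfaces of Picard number 20 and 19.
-/

set_option autoImplicit false

namespace Pool.Agent.Results.MP_1f4fc7_nt.AutomorphicPart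

open Complex Filter Topology ComplexConjugate NumberField IsDedekindDomain Polynomial

/-- The absolute Galois group of `K`. -/
abbrev GalGroup (K : Type) [Field K] : Type := Gal(AlgebraicClosure K/K)

/-- The finite primes of `K`, as prime ideals of its ring of integers. -/
abbrev Primes (K : Type) [Field K] [NumberField K] : Type := HeightOneSpectrum (𝓞 K)

/-- `q_v`, the number of elements of the residue field. -/
noncomputable def nrm {K : Type} [Field K] [NumberField K] (v : Primes K) : ℕ :=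
  Ideal.absNorm v.asIdeal

/-- The cohomology `H²(X)` of a variety `X` over `K`, as far as the Frobenius eigenvalues at almost all
primes are concerned: `frob v` are the `b₂` eigenvalues of the geometric Frobenius at `v`, and they have
absolute value `q_v` (Deligne). -/
structure SecondCohomology (K : Type) [Field K] [NumberField K] where
  b₂ : ℕ
  frob : Primes K → Fin b₂ → ℂ
  pure : ∀ᶠ v in cofinite, ∀ j, ‖frob v j‖ = (nrm v : ℝ)

/-- The Satake parameters at almost all primes of a unitary cuspidal automorphic representation of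
`GL_rank(𝔸_K)` which is tempered at almost all primes. -/
structure Cuspidal (K : Type) [Field K] [NumberField K] where
  rank : ℕ
  satake : Primes K → Fin rank → ℂ
  tempered : ∀ᶠ v in cofinite, ∀ j, ‖satake v j‖ = 1

/-- The Euler product `∏_v B_v(q_v^{-s})⁻¹`. -/
noncomputable def eulerProduct {K : Type} [Field K] [NumberField K] (B : Primes K → ℂ[X])
    (s : ℂ) : ℂ :=
  ∏' v : Primes K, ((B v).eval ((nrm v : ℂ) ^ (-s)))⁻¹

/-- The function `L(π × π'^∨, s)`, with suitable factors at finitely many primes, has a meromorphic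
continuation to a neighbourhood of `s = 1` and the order `m` at `s = 1`.  For unitary cuspidal
representations this is a theorem (Jacquet, Piatetski-Shapiro, Shalika), with `m = -1` if `π = π'`, and
`m = 0` if not. -/
def RankinSelberg {K : Type} [Field K] [NumberField K] (π π' : Cuspidal K) (m : ℤ) : Prop :=
  ∃ (B : Primes K → ℂ[X]) (Λ : ℂ → ℂ),
    (∀ᶠ v in cofinite, ∀ z : ℂ,
      (B v).eval z = ∏ i, ∏ j, (1 - π.satake v i * conj (π'.satake v j) * z)) ∧
    (∀ v, (B v).eval ((nrm v : ℂ) ^ (-(1 : ℂ))) ≠ 0) ∧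
    MeromorphicAt Λ 1 ∧ (∀ᶠ s in 𝓝 (1 : ℂ), 1 < s.re → Λ s = eulerProduct B s) ∧
    meromorphicOrderAt Λ 1 = m

/-- `σ` is a Frobenius element at `v`: there is a maximal ideal `Q` above `v` of the ring of all
algebraic integers with `σ x ≡ x ^ q_v` modulo `Q` for all `x`. -/
def IsFrobenius {K : Type} [Field K] [NumberField K] (v : Primes K) (σ : GalGroup K) : Prop :=
  ∃ Q : Ideal (𝓞 (AlgebraicClosure K)), Q.IsMaximal ∧
    Q.comap (algebraMap (𝓞 K) (𝓞 (AlgebraicClosure K))) = v.asIdeal ∧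
    ∀ x : 𝓞 (AlgebraicClosure K), σ • x - x ^ nrm v ∈ Q

/-- `ρ` is an Artin representation: it is trivial on an open subgroup of `Gal(K̄/K)`. -/
def IsArtin {K : Type} [Field K] [NumberField K] {n : ℕ}
    (ρ : Representation ℂ (GalGroup K) (Fin n → ℂ)) : Prop :=
  ∃ U : Subgroup (GalGroup K), IsOpen (U : Set (GalGroup K)) ∧ ∀ u ∈ U, ρ u = 1

/-- `H²(X)(1)` is the sum of the Artin representation `A`, of `a i` copies of `π i` for all `i`, and of a
part of dimension `u` about which nothing is known (its normalised Frobenius eigenvalues at `v` are `ν v`):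
the traces of Frobenius agree at almost all primes. -/
def IsSum {K : Type} [Field K] [NumberField K] (X : SecondCohomology K) {N : ℕ}
    (A : Representation ℂ (GalGroup K) (Fin N → ℂ)) {ι : Type} [Fintype ι] (a : ι → ℕ)
    (π : ι → Cuspidal K) {u : ℕ} (ν : Primes K → Fin u → ℂ) : Prop :=
  (∀ᶠ v in cofinite, ∀ j, ‖ν v j‖ = 1) ∧
  ∀ᶠ v in cofinite, ∀ σ : GalGroup K, IsFrobenius v σ →
    ∑ j, X.frob v j = (nrm v : ℂ) * (A.character σ⁻¹ +
      ∑ i, (a i : ℂ) * ∑ j, (π i).satake v j + ∑ j, ν v j)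

/-- The polynomials `B v` are the Euler factors of `H²(X) ⊗ ρ` at all but finitely many primes `v` of `K`:
`B_v(z) = ∏_j det(1 - α_j z ρ(Frob_v⁻¹))`, `α_j` the eigenvalues of Frobenius on `H²(X)`. -/
def IsEulerFactor {K : Type} [Field K] [NumberField K] (X : SecondCohomology K) {n : ℕ}
    (ρ : Representation ℂ (GalGroup K) (Fin n → ℂ)) (B : Primes K → ℂ[X]) : Prop :=
  ∀ᶠ v in cofinite, ∀ σ : GalGroup K, IsFrobenius v σ → ∀ z : ℂ,
    (B v).eval z = ∏ j, LinearMap.det (1 - (X.frob v j * z) • ρ σ⁻¹)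

/-- `log |L(2 + iτ + ε)| / log (1/ε)`, which tends to the order of the pole of the function at `2 + iτ` if
there is a meromorphic continuation to a neighbourhood. -/
noncomputable def size {K : Type} [Field K] [NumberField K] (B : Primes K → ℂ[X])
    (τ ε : ℝ) : ℝ :=
  Real.log ‖eulerProduct B (2 + τ * I + ε)‖ / Real.log (1 / ε)

open Classical in
/-- `⟨k, l⟩`: the dimension of `Hom(ρ_k, ρ_l)` if `τ_k = τ_l`, and `0` otherwise. -/
noncomputable def pairing {K : Type} [Field K] {κ : Type} {n : κ → ℕ}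
    (ρ : ∀ l, Representation ℂ (GalGroup K) (Fin (n l) → ℂ)) (τ : κ → ℝ) (k l : κ) : ℝ :=
  if τ k = τ l then (Module.finrank ℂ ((ρ k).IntertwiningMap (ρ l)) : ℝ) else 0

open Classical in
/-- What the order of the pole should be: at the height zero, the dimension of `Hom(ρ, A^∨)`, which is
the dimension of `(A ⊗ ρ)^{Gal(K̄/K)}`, and `0` at the other heights. -/
noncomputable def expected {K : Type} [Field K] {N : ℕ}
    (A : Representation ℂ (GalGroup K) (Fin N → ℂ)) {n : ℕ}
    (ρ : Representation ℂ (GalGroup K) (Fin n → ℂ)) (τ : ℝ) : ℕ :=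
  if τ = 0 then Module.finrank ℂ (ρ.IntertwiningMap A.dual) else 0

/-- **The defects of Tate's formula for all Artin twists, if a part of `H²(X)` is automorphic.**

Let `K` be a number field, `H²(X)(1) = A ⊕ ⊕ a_i π_i ⊕ (unknown part of dimension u)` as above, and for `k` in
a set (of any cardinality) let `ρ_k` be an Artin representation of `Gal(K̄/K)`, of dimension `n_k`,
`τ_k ∈ ℝ`, and `L_k` the Euler product of `H²(X) ⊗ ρ_k`, with arbitrary polynomials, not zero at
`q_v^{-(2 + iτ_k)}`, as factors at finitely many primes.  Write `x_k(ε) = log |L_k(2 + iτ_k + ε)| / log(1/ε)`,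
`R_k = expected A ρ_k τ_k` and `β = (√(∑ a_i²) + u)²`.

1. `L_k(2 + iτ_k + ε) ≠ 0` for small `ε > 0`.
2. (In 2., 3. and 4. nothing is assumed about continuation.)  For all finite sets `J` of indices, all `C`
and `η > 0` and all small `ε > 0`: `(∑_{k ∈ J} c_k (x_k(ε) - R_k))² ≤ β ∑_{k,l ∈ J} c_k c_l ⟨k, l⟩ + η` for all
real `c_k` with `|c_k| ≤ C`.
3. If the `ρ_k` are irreducible, and pairwise inequivalent for equal heights, then
`∑_{k ∈ J} (x_k(ε) - R_k)² ≤ β + η` for all small `ε > 0`.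
4. If `u = 0` and the automorphic part is one cuspidal representation `π` (once), and `ρ_k` is irreducible of
a dimension larger than the one of `π`, then there is an `A' < 1` with `|x_k(ε) - R_k| ≤ A'` for all small
`ε > 0`.
5. If the `L_k` have meromorphic continuations to neighbourhoods of the points `2 + iτ_k`, with poles of
order `r_k` (these exist), then
* `(∑_{k ∈ J} c_k (r_k - R_k))² ≤ β ∑_{k,l ∈ J} c_k c_l ⟨k, l⟩` for all real `c_k`;
* for irreducible `ρ_k`, pairwise inequivalent for equal heights, `∑_{k ∈ J} (r_k - R_k)² ≤ β`, and the set of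
the `k` with `r_k ≠ R_k` is finite and has at most `β` elements;
* if `u = 0` and the automorphic part is one cuspidal representation `π`, then for irreducible `ρ_k`,
pairwise inequivalent for equal heights, `r_k = R_k` for all `k` with at most one exception, and
`|r_k - R_k| ≤ 1`, and `r_k = R_k` if the dimension of `ρ_k` is larger than the one of `π`. -/
theorem result (K : Type) [Field K] [NumberField K] (X : SecondCohomology K) (N : ℕ)
    (A : Representation ℂ (GalGroup K) (Fin N → ℂ)) (hA : IsArtin A)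
    (ι : Type) [Fintype ι] (a : ι → ℕ) (π : ι → Cuspidal K)
    (hπ : ∀ i, RankinSelberg (π i) (π i) (-1))
    (hπ' : ∀ i j, i ≠ j → RankinSelberg (π i) (π j) 0)
    (u : ℕ) (ν : Primes K → Fin u → ℂ) (hX : IsSum X A a π ν)
    (κ : Type) (n : κ → ℕ) (ρ : ∀ k, Representation ℂ (GalGroup K) (Fin (n k) → ℂ))
    (τ : κ → ℝ) (B : κ → Primes K → ℂ[X]) (hρ : ∀ k, IsArtin (ρ k))
    (hB : ∀ k, IsEulerFactor X (ρ k) (B k))
    (hB0 : ∀ k v, (B k v).eval ((nrm v : ℂ) ^ (-(2 + τ k * I : ℂ))) ≠ 0)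
    (β : ℝ) (hβ : β = (Real.sqrt (∑ i, (a i : ℝ) ^ 2) + u) ^ 2) :
    (∀ k, ∀ᶠ ε : ℝ in 𝓝[>] 0, eulerProduct (B k) (2 + τ k * I + ε) ≠ 0) ∧
    (∀ (J : Finset κ) (C η : ℝ), 0 < η → ∀ᶠ ε : ℝ in 𝓝[>] 0, ∀ c : κ → ℝ,
      (∀ k ∈ J, |c k| ≤ C) →
      (∑ k ∈ J, c k * (size (B k) (τ k) ε - expected A (ρ k) (τ k))) ^ 2 ≤
        β * (∑ k ∈ J, ∑ l ∈ J, c k * c l * pairing ρ τ k l) + η) ∧
    ((∀ k, (ρ k).IsIrreducible) →
      (∀ k l, k ≠ l → τ k = τ l → IsEmpty ((ρ k).Equiv (ρ l))) →
      ∀ (J : Finset κ) (η : ℝ), 0 < η → ∀ᶠ ε : ℝ in 𝓝[>] 0,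
        ∑ k ∈ J, (size (B k) (τ k) ε - expected A (ρ k) (τ k)) ^ 2 ≤ β + η) ∧
    (∀ i₀ : ι, u = 0 → a i₀ = 1 → (∀ i, i ≠ i₀ → a i = 0) →
      ∀ k, (ρ k).IsIrreducible → (π i₀).rank < n k →
        ∃ A' : ℝ, A' < 1 ∧ ∀ᶠ ε : ℝ in 𝓝[>] 0,
          |size (B k) (τ k) ε - expected A (ρ k) (τ k)| ≤ A') ∧
    (∀ Λ : κ → ℂ → ℂ, (∀ k, MeromorphicAt (Λ k) (2 + τ k * I) ∧
      ∀ᶠ s in 𝓝 (2 + τ k * I : ℂ), 2 < s.re → Λ k s = eulerProduct (B k) s) →
      ∃ r : κ → ℤ, (∀ k, meromorphicOrderAt (Λ k) (2 + τ k * I) = ((-r k : ℤ))) ∧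
        (∀ (J : Finset κ) (c : κ → ℝ),
          (∑ k ∈ J, c k * ((r k : ℝ) - expected A (ρ k) (τ k))) ^ 2 ≤
            β * ∑ k ∈ J, ∑ l ∈ J, c k * c l * pairing ρ τ k l) ∧
        ((∀ k, (ρ k).IsIrreducible) →
          (∀ k l, k ≠ l → τ k = τ l → IsEmpty ((ρ k).Equiv (ρ l))) →
          (∀ J : Finset κ, ∑ k ∈ J, ((r k : ℝ) - expected A (ρ k) (τ k)) ^ 2 ≤ β) ∧
          {k | r k ≠ expected A (ρ k) (τ k)}.Finite ∧
          ({k | r k ≠ expected A (ρ k) (τ k)}.ncard : ℝ) ≤ β ∧
          ∀ i₀ : ι, u = 0 → a i₀ = 1 → (∀ i, i ≠ i₀ → a i = 0) →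
            {k | r k ≠ expected A (ρ k) (τ k)}.ncard ≤ 1 ∧
            (∀ k, |r k - expected A (ρ k) (τ k)| ≤ 1) ∧
            ∀ k, (π i₀).rank < n k → r k = expected A (ρ k) (τ k))) := by
  classical
  have hpt : ∀ x : ℝ, (((1 : ℝ) : ℂ) + 1 + x * I) = 2 + x * I := by
    intro x
    push_cast
    ring
  have hα : ∀ᶠ v in cofinite, ∀ j, ‖X.frob v j‖ = (W540.BE.nm K v : ℝ) ^ (1 : ℝ) :=
    X.pure.mono fun v h j => by
      rw [Real.rpow_one]
      exact h j
  have hπt : ∀ i, ∀ᶠ v in cofinite, ∀ j, ‖(π i).satake v j‖ = 1 := fun i => (π i).tempered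
  -- the theorem of Rankin and Selberg as a mean value
  have hrs0 : ∀ (i j : ι) (m : ℤ), RankinSelberg (π i) (π j) m → Tendsto (fun ε : ℝ =>
      (W540.BE.EP (W540.BE.nm K) ε fun v => (X288.CX.trc 0 (π i).satake v *
        conj (X288.CX.trc 0 (π j).satake v)).re) / H341R2.lam ε) (𝓝[>] 0)
      (𝓝 (-(m : ℝ))) := by
    intro i j m h
    obtain ⟨B', Λ, h1, h2, h3, h4, h5⟩ := h
    exact X288.CX.rs_corr (hπt i) (hπt j) B' h1 h2 h3 h4 h5
  have hrs : ∀ i j : ι, Tendsto (fun ε : ℝ =>
      (W540.BE.EP (W540.BE.nm K) ε fun v => (X288.CX.trc 0 (π i).satake v *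
        conj (X288.CX.trc 0 (π j).satake v)).re) / H341R2.lam ε) (𝓝[>] 0)
      (𝓝 (if i = j then 1 else 0)) := by
    intro i j
    split_ifs with h
    · subst h
      have := hrs0 i i (-1) (hπ i)
      rw [show -(((-1 : ℤ)) : ℝ) = 1 by norm_num] at this
      exact this
    · have := hrs0 i j 0 (hπ' i j h)
      rw [show -(((0 : ℤ)) : ℝ) = 0 by norm_num] at this
      exact this
  set t : Primes K → ℂ := fun v => X288.CX.tT (fun i => (π i).satake) (fun i => (a i : ℝ)) v +
    X288.CX.trc 0 ν v with ht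
  have hνb : ∀ v, ‖X288.CX.trc 0 ν v‖ ≤ u := X288.CX.norm_trc_le 0 ν
  have htb : ∀ v, ‖t v‖ ≤ (∑ i, |(a i : ℝ)| * (π i).rank) + u := fun v =>
    (norm_add_le _ _).trans (add_le_add (X288.CX.norm_tT _ _ v) (hνb v))
  have hdec : ∀ σ : Primes K → W401.Cheb.GK K, (∀ v, W401.Cheb.IsFrob v (σ v)) →
      ∀ᶠ v in cofinite, X288.CX.trc 1 X.frob v = A.character (σ v)⁻¹ + t v := by
    intro σ hσ
    exact X288.CX.trc_dec 1 X.frob hα A (fun i => (π i).satake) hπt (fun i => (a i : ℝ)) ν
      hX.1 (hX.2.mono fun v h σ' hσ' => by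
        rw [h σ' hσ', Real.rpow_one]
        push_cast
        rfl) σ hσ
  have hβ0 : 0 ≤ β := by
    rw [hβ]
    exact sq_nonneg _
  have hsec : ∀ δ : ℝ, 0 < δ → ∀ᶠ ε : ℝ in 𝓝[>] 0,
      (W540.BE.EP (W540.BE.nm K) ε fun v => ‖t v‖ ^ 2) / H341R2.lam ε ≤ β + δ := by
    intro δ hδ
    rw [hβ]
    exact X288.CX.sec_TU (fun i => (π i).satake) (fun i => (a i : ℝ)) hrs hνb hδ
  have hB0' : ∀ k v, (B k v).eval (((W540.BE.nm K v : ℕ) : ℂ) ^
      (-(((1 : ℝ) : ℂ) + 1 + τ k * I : ℂ))) ≠ 0 := by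
    intro k v
    rw [hpt]
    exact hB0 k v
  have hL : ∀ k, ∀ s : ℂ, (1 : ℝ) + 1 < s.re → eulerProduct (B k) s =
      ∏' v, ((B k v).eval (((W540.BE.nm K v : ℕ) : ℂ) ^ (-s)))⁻¹ := fun k s _ => rfl
  have hev : ∀ k, (if τ k = 0 then
      (Module.finrank ℂ ((ρ k).IntertwiningMap A.dual) : ℝ) else 0) =
      expected A (ρ k) (τ k) := by
    intro k
    unfold expected
    split_ifs <;> simp
  have hne0 : ∀ k, ∀ᶠ ε : ℝ in 𝓝[>] 0, eulerProduct (B k) (2 + τ k * I + ε) ≠ 0 := by
    intro k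
    have h4 := X288.CX.neC 1 _ hα (fun _ : Unit => ρ k) (fun _ => hρ k) (fun _ => τ k)
      (fun _ => B k) (fun _ => hB k) (fun _ => hB0' k)
      (fun _ => eulerProduct (B k)) (fun _ => hL k) ()
    simp only [hpt] at h4
    exact h4
  have key : ∀ (J : Finset κ) (C η : ℝ), 0 < η → ∀ᶠ ε : ℝ in 𝓝[>] 0,
      ∀ (c : J → ℝ), (∀ k, |c k| ≤ C) →
      (∑ k : J, c k * (size (B k) (τ k) ε - expected A (ρ k) (τ k))) ^ 2 ≤
        β * (∑ k : J, ∑ l : J, c k * c l * pairing ρ τ k l) + η := by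
    intro J C η hη
    have h4 := X288.CX.aut_gram 1 X.frob hα A hA t htb hdec (fun k : J => ρ k)
      (fun k => hρ k) (fun k => τ k) (fun k => B k) (fun k => hB k) (fun k => hB0' k)
      (fun k => eulerProduct (B k)) (fun k => hL k) hβ0 hsec C hη
    filter_upwards [h4] with ε h5 c hc
    have h6 := h5 c hc
    have e2 : ∀ (k : J), W353.L1.xs 1 (fun k : J => τ k)
        (fun k : J => eulerProduct (B k)) k ε - X288.CX.evA (fun k : J => ρ k) A
        (fun k : J => τ k) k = size (B k) (τ k) ε - expected A (ρ k) (τ k) := by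
      intro k
      unfold W353.L1.xs size X288.CX.evA
      rw [hpt, hev k]
    simp only [e2] at h6
    exact h6
  have key2 : ∀ (J : Finset κ) (C η : ℝ), 0 < η → ∀ᶠ ε : ℝ in 𝓝[>] 0, ∀ c : κ → ℝ,
      (∀ k ∈ J, |c k| ≤ C) →
      (∑ k ∈ J, c k * (size (B k) (τ k) ε - expected A (ρ k) (τ k))) ^ 2 ≤
        β * (∑ k ∈ J, ∑ l ∈ J, c k * c l * pairing ρ τ k l) + η := by
    intro J C η hη
    filter_upwards [key J C η hη] with ε h5 c hc
    have h6 := h5 (fun k => c k) (fun k => hc k k.2)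
    have e1 : ∑ k : J, c k * (size (B k) (τ k) ε - expected A (ρ k) (τ k)) =
        ∑ k ∈ J, c k * (size (B k) (τ k) ε - expected A (ρ k) (τ k)) :=
      Finset.sum_coe_sort J fun k => c k * (size (B k) (τ k) ε - expected A (ρ k) (τ k))
    have e3 : ∑ k : J, ∑ l : J, c k * c l * pairing ρ τ k l =
        ∑ k ∈ J, ∑ l ∈ J, c k * c l * pairing ρ τ k l := by
      rw [← Finset.sum_coe_sort J]
      refine Finset.sum_congr rfl fun i _ => ?_
      rw [← Finset.sum_coe_sort J]
    rw [e1, e3] at h6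
    exact h6
  have hdisj : (∀ k, (ρ k).IsIrreducible) →
      (∀ k l, k ≠ l → τ k = τ l → IsEmpty ((ρ k).Equiv (ρ l))) →
      ∀ (J : Finset κ) (η : ℝ), 0 < η → ∀ᶠ ε : ℝ in 𝓝[>] 0,
        ∑ k ∈ J, (size (B k) (τ k) ε - expected A (ρ k) (τ k)) ^ 2 ≤ β + η := by
    intro hirr hne J η hη
    have h4 := X288.CX.aut_disj 1 X.frob hα A hA t htb hdec (fun k : J => ρ k)
      (fun k => hρ k) (fun k => τ k) (fun k => B k) (fun k => hB k) (fun k => hB0' k)
      (fun k => eulerProduct (B k)) (fun k => hL k) hβ0 hsec (fun k => hirr k)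
      (fun k l hkl => hne k l fun h => hkl (Subtype.ext h)) hη
    filter_upwards [h4] with ε h6
    have e2 : ∀ (k : J), W353.L1.xs 1 (fun k : J => τ k)
        (fun k : J => eulerProduct (B k)) k ε - X288.CX.evA (fun k : J => ρ k) A
        (fun k : J => τ k) k = size (B k) (τ k) ε - expected A (ρ k) (τ k) := by
      intro k
      unfold W353.L1.xs size X288.CX.evA
      rw [hpt, hev k]
    simp only [e2] at h6
    rw [← Finset.sum_coe_sort J]
    exact h6
  have hstrict : ∀ i₀ : ι, u = 0 → a i₀ = 1 → (∀ i, i ≠ i₀ → a i = 0) →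
      ∀ k, (ρ k).IsIrreducible → (π i₀).rank < n k →
        ∃ A' : ℝ, A' < 1 ∧ ∀ᶠ ε : ℝ in 𝓝[>] 0,
          |size (B k) (τ k) ε - expected A (ρ k) (τ k)| ≤ A' := by
    intro i₀ hu ha1 ha0 k hk h3
    have hS : ∑ i, (a i : ℝ) ^ 2 = 1 := by
      rw [Finset.sum_eq_single i₀ (fun j _ hj => by rw [ha0 j hj]; norm_num)
        (fun hi => absurd (Finset.mem_univ i₀) hi), ha1]
      norm_num
    have hβ1 : β = 1 := by
      rw [hβ, hS, hu]
      norm_num
    have htb' : ∀ v, ‖t v‖ ≤ ((π i₀).rank : ℝ) := by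
      intro v
      refine (htb v).trans (le_of_eq ?_)
      rw [Finset.sum_eq_single i₀ (fun j _ hj => by rw [ha0 j hj]; norm_num)
        (fun hi => absurd (Finset.mem_univ i₀) hi), ha1, hu]
      norm_num
    rw [hβ1] at hsec
    obtain ⟨A', hA', h4⟩ := X288.CX.aut_strict 1 X.frob hα A hA t htb' hdec
      (fun _ : Unit => ρ k) (fun _ => hρ k) (fun _ => τ k) (fun _ => B k) (fun _ => hB k)
      (fun _ => hB0' k) (fun _ => eulerProduct (B k)) (fun _ => hL k) hsec (k := ()) hk
      (by exact_mod_cast h3)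
    refine ⟨A', hA', h4.mono fun ε hε => ?_⟩
    unfold W353.L1.xs X288.CX.evA at hε
    rw [hpt, hev k] at hε
    exact hε
  refine ⟨hne0, key2, hdisj, hstrict, fun Λ hΛ => ?_⟩
  have hre : ∀ k, ((2 : ℂ) + τ k * I).re = 2 := fun k => by simp
  have hord : ∀ k, ∃ m : ℤ, meromorphicOrderAt (Λ k) (2 + τ k * I) = m ∧
      Tendsto (size (B k) (τ k)) (𝓝[>] 0) (𝓝 (-(m : ℝ))) := fun k =>
    X288.CX.order_exists (hΛ k).1 (by
      rw [hre]
      exact (hΛ k).2) (hne0 k)
  choose m hm1 hm2 using hord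
  set r : κ → ℤ := fun k => -m k with hr
  have hlim : ∀ k, Tendsto (fun ε => size (B k) (τ k) ε - expected A (ρ k) (τ k)) (𝓝[>] 0)
      (𝓝 ((r k : ℝ) - expected A (ρ k) (τ k))) := by
    intro k
    have h4 := (hm2 k).sub_const ((expected A (ρ k) (τ k) : ℕ) : ℝ)
    have e1 : -(m k : ℝ) = (r k : ℝ) := by
      rw [hr]
      push_cast
      ring
    rw [e1] at h4
    exact h4
  refine ⟨r, fun k => ?_, fun J c => ?_, fun hirr hne => ?_⟩
  · rw [hr]
    simp only [neg_neg]
    exact hm1 k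
  · refine le_of_forall_pos_le_add fun η hη => ?_
    have h5 : Tendsto (fun ε : ℝ => (∑ k ∈ J, c k * (size (B k) (τ k) ε -
        expected A (ρ k) (τ k))) ^ 2) (𝓝[>] 0)
        (𝓝 ((∑ k ∈ J, c k * ((r k : ℝ) - expected A (ρ k) (τ k))) ^ 2)) :=
      (tendsto_finsetSum _ fun k _ => (hlim k).const_mul (c k)).pow 2
    refine le_of_tendsto h5 ?_
    filter_upwards [key2 J (∑ k ∈ J, |c k|) η hη] with ε h4
    exact h4 c fun k hk => Finset.single_le_sum (f := fun k => |c k|)
      (fun k _ => abs_nonneg _) hk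
  · have hsq : ∀ J : Finset κ, ∑ k ∈ J, ((r k : ℝ) - expected A (ρ k) (τ k)) ^ 2 ≤ β := by
      intro J
      refine le_of_forall_pos_le_add fun η hη => ?_
      have h5 : Tendsto (fun ε : ℝ => ∑ k ∈ J, (size (B k) (τ k) ε -
          expected A (ρ k) (τ k)) ^ 2) (𝓝[>] 0)
          (𝓝 (∑ k ∈ J, ((r k : ℝ) - expected A (ρ k) (τ k)) ^ 2)) :=
        tendsto_finsetSum _ fun k _ => (hlim k).pow 2
      exact le_of_tendsto h5 (hdisj hirr hne J η hη)
    have hone : ∀ k, r k ≠ expected A (ρ k) (τ k) →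
        (1 : ℝ) ≤ ((r k : ℝ) - expected A (ρ k) (τ k)) ^ 2 := by
      intro k hk
      have h4 : r k - (expected A (ρ k) (τ k) : ℤ) ≠ 0 := sub_ne_zero.2 hk
      have h5 : (1 : ℤ) ≤ (r k - (expected A (ρ k) (τ k) : ℤ)) ^ 2 := by
        have := Int.one_le_abs h4
        rw [← sq_abs]
        nlinarith
      exact_mod_cast h5
    have hb : ∀ S : Finset κ, (S : Set κ) ⊆ {k | r k ≠ expected A (ρ k) (τ k)} →
        (S.card : ℝ) ≤ β := by
      intro S hS
      refine le_trans ?_ (hsq S)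
      rw [Finset.card_eq_sum_ones]
      push_cast
      exact Finset.sum_le_sum fun i hi => hone _ (hS hi)
    have hfin : {k | r k ≠ expected A (ρ k) (τ k)}.Finite := by
      by_contra hinf
      obtain ⟨M, hM⟩ := exists_nat_gt β
      obtain ⟨S, hS1, hS2⟩ := Set.Infinite.exists_subset_card_eq hinf M
      have := hb S hS1
      rw [hS2] at this
      linarith
    have hcard : ({k | r k ≠ expected A (ρ k) (τ k)}.ncard : ℝ) ≤ β := by
      rw [Set.ncard_eq_toFinset_card _ hfin]
      exact hb _ (by rw [Set.Finite.coe_toFinset])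
    refine ⟨hsq, hfin, hcard, fun i₀ hu ha1 ha0 => ?_⟩
    have hS : ∑ i, (a i : ℝ) ^ 2 = 1 := by
      rw [Finset.sum_eq_single i₀ (fun j _ hj => by rw [ha0 j hj]; norm_num)
        (fun hi => absurd (Finset.mem_univ i₀) hi), ha1]
      norm_num
    have hβ1 : β = 1 := by
      rw [hβ, hS, hu]
      norm_num
    refine ⟨?_, fun k => ?_, fun k hk => ?_⟩
    · rw [hβ1] at hcard
      exact_mod_cast hcard
    · have h4 := hsq {k}
      rw [Finset.sum_singleton, hβ1] at h4
      have h5 : (r k - (expected A (ρ k) (τ k) : ℤ)) ^ 2 ≤ 1 := by exact_mod_cast h4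
      rw [abs_le]
      constructor <;> nlinarith
    · obtain ⟨A', hA', h4⟩ := hstrict i₀ hu ha1 ha0 k (hirr k) hk
      have h5 := le_of_tendsto (hlim k).abs h4
      have h6 : |((r k - (expected A (ρ k) (τ k) : ℤ) : ℤ) : ℝ)| < 1 := by
        push_cast
        exact lt_of_le_of_lt h5 hA'
      have h7 : |r k - (expected A (ρ k) (τ k) : ℤ)| < 1 := by exact_mod_cast h6
      have h8 := Int.abs_lt_one_iff.1 h7
      linarith

end Pool.Agent.Results.MP_1f4fc7_nt.AutomorphicPart
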