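import Pool.Agent.X22.ND7
import Pool.Agent.X22.NF

/-!
# Surface sections of arbitrary varieties over number fields by hypersurfaces from arbitrarily thin families: the new part of `H²` has no
pole at `s = 2` to GRH strength

Nothing is used besides Mathlib in the statement.
-/

set_option autoImplicit false

namespace Pool.Agent.Results.MP_1f4fc7_nt.FewDigitSections

open Finset NumberField IsDedekindDomain Module

/-- The value at `u` of the form number `i < s` of the system: the sum of `m l u ^ (E l)` over the `l < d` with `c l = i`. -/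
def form {R : Type} [CommRing R] {s d n : ℕ} (c : Fin d → Fin s) (E : Fin d → (Fin n → ℕ)) (m : Fin d → ℕ) (i : Fin s) (u : Fin n → R) : R :=
  ∑ l ∈ univ.filter (fun l => c l = i), (m l : R) * ∏ j, u j ^ E l j

section
variable {F : Type} [Field F] [NumberField F]

/-- The number of the points over the residue field at `v` of the variety `V ⊆ ℙ ^ (n - 1)` over `F` given by the finite set `H` of homogeneous polynomials
with integral coefficients: the number of the nonzero vectors with `h (u) = 0` for all `h ∈ H`, divided by `N v - 1`. -/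
noncomputable def points {n : ℕ} (H : Finset (MvPolynomial (Fin n) (𝓞 F))) (v : HeightOneSpectrum (𝓞 F)) : ℝ :=
  (Nat.card {u : Fin n → 𝓞 F ⧸ v.asIdeal // u ≠ 0 ∧ ∀ h ∈ H, h.eval₂ (Ideal.Quotient.mk v.asIdeal) u = 0} : ℝ) / (Ideal.absNorm v.asIdeal - 1)

/-- The number of the points over the residue field at `v` of the section `S_m` of `V` by the `s` hypersurfaces of the system. -/
noncomputable def sectionPoints {s d n : ℕ} (c : Fin d → Fin s) (E : Fin d → (Fin n → ℕ)) (m : Fin d → ℕ)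
    (H : Finset (MvPolynomial (Fin n) (𝓞 F))) (v : HeightOneSpectrum (𝓞 F)) : ℝ :=
  (Nat.card {u : Fin n → 𝓞 F ⧸ v.asIdeal // (u ≠ 0 ∧ ∀ h ∈ H, h.eval₂ (Ideal.Quotient.mk v.asIdeal) u = 0) ∧ ∀ i, form c E m i u = 0} : ℝ) /
    (Ideal.absNorm v.asIdeal - 1)

/-- `(#S_m (k_v) - #V (k_v) / (N v) ^ s) / N v`. If `V` is smooth of dimension `s + 2` and `S_m` is a smooth surface, this is the trace of Frobenius on
`H²(S_m)(1)` minus that on `H²(V)(1)`, up to `O ((N v) ^ (-1 / 2))` (theorems of Lefschetz and Deligne). -/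
noncomputable def newPart {s d n : ℕ} (c : Fin d → Fin s) (E : Fin d → (Fin n → ℕ)) (m : Fin d → ℕ)
    (H : Finset (MvPolynomial (Fin n) (𝓞 F))) (v : HeightOneSpectrum (𝓞 F)) : ℝ :=
  (sectionPoints c E m H v - points H v / (Ideal.absNorm v.asIdeal : ℝ) ^ s) / Ideal.absNorm v.asIdeal

/-- The partial sum `∑ w (v) D_v (log N v) (N v) ^ (- i τ)` with `D_v = newPart` over the places `v` of `F` of degree one with `N v ≤ x` not above `2` for which
`|D_v| ≤ (N v) ^ (1 / 2)`; by Deligne's theorem this holds for all places of good reduction but finitely many, in terms of the Betti numbers. -/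
noncomputable def partialSum {s d n : ℕ} (c : Fin d → Fin s) (E : Fin d → (Fin n → ℕ)) (m : Fin d → ℕ)
    (H : Finset (MvPolynomial (Fin n) (𝓞 F))) (w : HeightOneSpectrum (𝓞 F) → ℂ) (τ : ℝ) (x : ℕ) : ℂ :=
  ∑ᶠ v ∈ {v : HeightOneSpectrum (𝓞 F) | (Ideal.absNorm v.asIdeal ≤ x ∧ (2 : 𝓞 F) ∉ v.asIdeal) ∧ (Ideal.absNorm v.asIdeal).Prime ∧
      |newPart c E m H v| ≤ Real.sqrt (Ideal.absNorm v.asIdeal)},
    w v * ((newPart c E m H v * Real.log (Ideal.absNorm v.asIdeal) : ℝ) : ℂ) *
      Complex.exp (((-(τ * Real.log (Ideal.absNorm v.asIdeal)) : ℝ) : ℂ) * Complex.I)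

end

/-- The digit number `i` (counted from the right, beginning with `0`) of `n` in base `b`. -/
def digit (b i n : ℕ) : ℕ := n / b ^ i % b

/-- The number which arises from the number `N` with at most `K` digits in base `b`, if for every `i ∈ S`
the digit number `i` is replaced by `f i`. -/
def change (b K N : ℕ) (f : ℕ → ℕ) (S : Finset ℕ) : ℕ :=
  ∑ i ∈ range K, (if i ∈ S then f i else digit b i N) * b ^ i

open Classical in
/-- The number of the choices of `r l` of `K l` positions for all `l < d` for which the vector of the numbers obtained by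
changing the digits of the `N l` at the chosen positions (according to `f l`) does not have the property `E`. -/
noncomputable def exceptions {d : ℕ} (b : ℕ) (K r N : Fin d → ℕ) (f : Fin d → ℕ → ℕ) (E : (Fin d → ℕ) → Prop) : ℕ :=
  ((Fintype.piFinset (fun l => powersetCard (r l) (range (K l)))).filter
    (fun S => ¬ E (fun l => change b (K l) (N l) (f l) (S l)))).card

open Pool.Agent.X22.ND (op mem_op mzd_law absorb hp norm_hp mean_mono mean_zmod trunc trunc_le trunc_sq mean_trunc sum_inv_sqrt cardop_le abs_mean_le)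
open Pool.Agent.X22.NF (pr mem_pr resEquiv card_fiber_le two_notMem)
open Pool.Agent.X22.SEC
open Pool.Agent.TH894.NE (mean mean_mul mean_const)

section
variable {F : Type} [Field F] [NumberField F]

/-- reduction modulo a place of degree one -/
noncomputable def red (v : HeightOneSpectrum (𝓞 F)) (p : ℕ) (hp' : p.Prime) (h : Ideal.absNorm v.asIdeal = p) : 𝓞 F →+* ZMod p :=
  ((resEquiv v p hp' h).symm : (𝓞 F ⧸ v.asIdeal) →+* ZMod p).comp (Ideal.Quotient.mk v.asIdeal)

open Classical in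
/-- the vectors of the cone of `V` modulo `v` -/
noncomputable def cone {n : ℕ} (H : Finset (MvPolynomial (Fin n) (𝓞 F))) (v : HeightOneSpectrum (𝓞 F)) (p : ℕ) (hp' : p.Prime)
    (h : Ideal.absNorm v.asIdeal = p) : Finset (Fin n → ZMod p) :=
  haveI : Fact p.Prime := ⟨hp'⟩
  univ.filter (fun u => u ≠ 0 ∧ ∀ f ∈ H, f.eval₂ (red v p hp' h) u = 0)

lemma form_map {R R' : Type} [CommRing R] [CommRing R'] (e : R →+* R') {s d n : ℕ} (c : Fin d → Fin s) (E : Fin d → (Fin n → ℕ)) (m : Fin d → ℕ) (i : Fin s)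
    (u : Fin n → R) : form c E m i (fun j => e (u j)) = e (form c E m i u) := by
  unfold form
  rw [map_sum]
  apply sum_congr rfl
  intro l _
  rw [map_mul, map_natCast, map_prod]
  simp only [map_pow]

lemma eval_map {n : ℕ} (v : HeightOneSpectrum (𝓞 F)) (p : ℕ) (hp' : p.Prime) (h : Ideal.absNorm v.asIdeal = p) (f : MvPolynomial (Fin n) (𝓞 F))
    (u : Fin n → ZMod p) : f.eval₂ (Ideal.Quotient.mk v.asIdeal) (fun j => resEquiv v p hp' h (u j)) = resEquiv v p hp' h (f.eval₂ (red v p hp' h) u) := by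
  have h1 := MvPolynomial.eval₂_comp_left (resEquiv v p hp' h : ZMod p →+* (𝓞 F ⧸ v.asIdeal)) (red v p hp' h) u f
  have h2 : (resEquiv v p hp' h : ZMod p →+* (𝓞 F ⧸ v.asIdeal)).comp (red v p hp' h) = Ideal.Quotient.mk v.asIdeal := by
    ext a
    show resEquiv v p hp' h ((resEquiv v p hp' h).symm (Ideal.Quotient.mk v.asIdeal a)) = _
    rw [RingEquiv.apply_symm_apply]
  rw [h2] at h1
  exact h1.symm

lemma points_eq {n : ℕ} (H : Finset (MvPolynomial (Fin n) (𝓞 F))) (v : HeightOneSpectrum (𝓞 F)) (p : ℕ) (hp' : p.Prime)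
    (h : Ideal.absNorm v.asIdeal = p) : points H v = ((cone H v p hp' h).card : ℝ) / (p - 1) := by
  classical
  have hf : Fact p.Prime := ⟨hp'⟩
  obtain ⟨e, he⟩ : ∃ e : ZMod p ≃+* (𝓞 F ⧸ v.asIdeal), e = resEquiv v p hp' h := ⟨_, rfl⟩
  unfold points
  rw [h]
  congr 2
  unfold cone
  rw [← Nat.card_congr (((Equiv.refl (Fin n)).arrowCongr e.toEquiv).subtypeEquiv (p := fun u : Fin n → ZMod p => u ≠ 0 ∧ ∀ f ∈ H, f.eval₂ (red v p hp' h) u = 0) ?_),
    Nat.card_eq_fintype_card, Fintype.card_subtype]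
  intro u
  show _ ↔ ((fun j => e (u j)) ≠ 0 ∧ ∀ f ∈ H, f.eval₂ (Ideal.Quotient.mk v.asIdeal) (fun j => e (u j)) = 0)
  have e1 : (fun j => e (u j)) = 0 ↔ u = 0 := by
    constructor
    · intro h1
      funext j
      have := congrFun h1 j
      simpa using this
    · rintro rfl
      funext j
      simp
  have e2 : ∀ f : MvPolynomial (Fin n) (𝓞 F), f.eval₂ (Ideal.Quotient.mk v.asIdeal) (fun j => e (u j)) = 0 ↔ f.eval₂ (red v p hp' h) u = 0 := by
    intro f
    rw [he, eval_map, ← he]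
    exact EmbeddingLike.map_eq_zero_iff
  simp only [e2, ne_eq, e1]

lemma sectionPoints_eq {s d n : ℕ} (c : Fin d → Fin s) (E : Fin d → (Fin n → ℕ)) (m : Fin d → ℕ) (H : Finset (MvPolynomial (Fin n) (𝓞 F)))
    (v : HeightOneSpectrum (𝓞 F)) (p : ℕ) (hp' : p.Prime) (h : Ideal.absNorm v.asIdeal = p) :
    sectionPoints c E m H v = (∑ u ∈ cone H v p hp' h, (if LF c (mv E u) (fun l => (m l : ZMod p)) = 0 then 1 else 0 : ℝ)) / (p - 1) := by
  classical
  have hf : Fact p.Prime := ⟨hp'⟩
  obtain ⟨e, he⟩ : ∃ e : ZMod p ≃+* (𝓞 F ⧸ v.asIdeal), e = resEquiv v p hp' h := ⟨_, rfl⟩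
  unfold sectionPoints
  rw [h]
  congr 1
  rw [← Nat.card_congr (((Equiv.refl (Fin n)).arrowCongr e.toEquiv).subtypeEquiv (p := fun u : Fin n → ZMod p =>
    (u ≠ 0 ∧ ∀ f ∈ H, f.eval₂ (red v p hp' h) u = 0) ∧ LF c (mv E u) (fun l => (m l : ZMod p)) = 0) ?_),
    Nat.card_eq_fintype_card, Fintype.card_subtype, ← filter_filter]
  · rw [sum_ite, sum_const_zero, add_zero, sum_const, nsmul_eq_mul, mul_one]
    unfold cone
    norm_cast
    try congr!
  intro u
  show _ ↔ (((fun j => e (u j)) ≠ 0 ∧ ∀ f ∈ H, f.eval₂ (Ideal.Quotient.mk v.asIdeal) (fun j => e (u j)) = 0) ∧ ∀ i, form c E m i (fun j => e (u j)) = 0)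
  have e1 : (fun j => e (u j)) = 0 ↔ u = 0 := by
    constructor
    · intro h1
      funext j
      have := congrFun h1 j
      simpa using this
    · rintro rfl
      funext j
      simp
  have e2 : ∀ f : MvPolynomial (Fin n) (𝓞 F), f.eval₂ (Ideal.Quotient.mk v.asIdeal) (fun j => e (u j)) = 0 ↔ f.eval₂ (red v p hp' h) u = 0 := by
    intro f
    rw [he, eval_map, ← he]
    exact EmbeddingLike.map_eq_zero_iff
  have e3 : (∀ i, form c E m i (fun j => e (u j)) = 0) ↔ LF c (mv E u) (fun l => (m l : ZMod p)) = 0 := by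
    have e4 : ∀ i, form c E m i (fun j => e (u j)) = e (LF c (mv E u) (fun l => (m l : ZMod p)) i) := by
      intro i
      exact form_map (e : ZMod p →+* (𝓞 F ⧸ v.asIdeal)) c E m i u
    constructor
    · intro h1
      funext i
      have := h1 i
      rw [e4] at this
      simpa using this
    · intro h1 i
      rw [e4, h1]
      simp
  simp only [e2, ne_eq, e1, e3]

lemma newPart_eq {s d n : ℕ} (c : Fin d → Fin s) (E : Fin d → (Fin n → ℕ)) (m : Fin d → ℕ) (H : Finset (MvPolynomial (Fin n) (𝓞 F)))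
    (v : HeightOneSpectrum (𝓞 F)) (p : ℕ) (hp' : p.Prime) (h : Ideal.absNorm v.asIdeal = p) :
    newPart c E m H v = (1 / (((p : ℝ) - 1) * p)) * ∑ u ∈ cone H v p hp' h, phs p s (LF c (mv E u) (fun l => (m l : ZMod p))) := by
  have hp0 : (p : ℝ) ≠ 0 := by exact_mod_cast hp'.ne_zero
  have hp1 : (p : ℝ) - 1 ≠ 0 := by
    have : (1 : ℝ) < p := by exact_mod_cast hp'.one_lt
    linarith
  unfold newPart phs
  rw [points_eq H v p hp' h, sectionPoints_eq c E m H v p hp' h, h, sum_sub_distrib, sum_const, nsmul_eq_mul]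
  field_simp

end

section
variable {F : Type} [Field F] [NumberField F]

lemma cone_ne {n : ℕ} (H : Finset (MvPolynomial (Fin n) (𝓞 F))) (v : HeightOneSpectrum (𝓞 F)) (p : ℕ) (hp' : p.Prime)
    (h : Ideal.absNorm v.asIdeal = p) : ∀ u ∈ cone H v p hp' h, u ≠ 0 := by
  intro u hu
  unfold cone at hu
  rw [mem_filter] at hu
  exact hu.2.1

lemma mean_new {s d n : ℕ} (c : Fin d → Fin s) (E : Fin d → (Fin n → ℕ)) (e : Fin s → ℕ) (he : ∀ i, 1 ≤ e i)
    (hE : ∀ i j j', ∃ l, c l = i ∧ E l = Pi.single j (e i - 1) + Pi.single j' 1) (H : Finset (MvPolynomial (Fin n) (𝓞 F)))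
    (v : HeightOneSpectrum (𝓞 F)) (p : ℕ) (hp' : p.Prime) (h : Ideal.absNorm v.asIdeal = p) :
    mean d p (fun m => newPart c E m H v) = 0 := by
  have hf : Fact p.Prime := ⟨hp'⟩
  have h3 : (fun m : Fin d → ℕ => newPart c E m H v) = fun m : Fin d → ℕ =>
      (fun z : Fin d → ZMod p => (1 / (((p : ℝ) - 1) * p)) * ∑ u ∈ cone H v p hp' h, phs p s (LF c (mv E u) z)) (fun i => (m i : ZMod p)) := by
    funext m
    rw [newPart_eq c E m H v p hp' h]
  have h4 : mean d p (fun m => newPart c E m H v) =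
      (∑ z : Fin d → ZMod p, (1 / (((p : ℝ) - 1) * p)) * ∑ u ∈ cone H v p hp' h, phs p s (LF c (mv E u) z)) / (p : ℝ) ^ d := by
    rw [h3]
    exact mean_zmod d p hp' (fun z => (1 / (((p : ℝ) - 1) * p)) * ∑ u ∈ cone H v p hp' h, phs p s (LF c (mv E u) z))
  rw [h4, ← mul_sum, sec_mean E c e he hE _ (cone_ne H v p hp' h)]
  simp

lemma mean_new_sq {s d n : ℕ} (c : Fin d → Fin s) (E : Fin d → (Fin n → ℕ)) (e : Fin s → ℕ) (he : ∀ i, 1 ≤ e i)
    (hE : ∀ i j j', ∃ l, c l = i ∧ E l = Pi.single j (e i - 1) + Pi.single j' 1) (H : Finset (MvPolynomial (Fin n) (𝓞 F)))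
    (v : HeightOneSpectrum (𝓞 F)) (p : ℕ) (hp' : p.Prime) (h : Ideal.absNorm v.asIdeal = p) (B : ℝ)
    (hB : points H v ≤ B * (Ideal.absNorm v.asIdeal : ℝ) ^ (s + 2)) :
    mean d p (fun m => newPart c E m H v ^ 2) ≤ B := by
  have hf : Fact p.Prime := ⟨hp'⟩
  have hp1 : (1 : ℝ) < p := by exact_mod_cast hp'.one_lt
  have hp0 : (0 : ℝ) < p := by linarith
  have hp2 : (0 : ℝ) < (p : ℝ) - 1 := by linarith
  have h3 : (fun m : Fin d → ℕ => newPart c E m H v ^ 2) = fun m : Fin d → ℕ =>
      (fun z : Fin d → ZMod p => (1 / (((p : ℝ) - 1) * p)) ^ 2 * (∑ u ∈ cone H v p hp' h, phs p s (LF c (mv E u) z)) ^ 2) (fun i => (m i : ZMod p)) := by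
    funext m
    rw [newPart_eq c E m H v p hp' h, mul_pow]
  have h4 : mean d p (fun m => newPart c E m H v ^ 2) =
      (∑ z : Fin d → ZMod p, (1 / (((p : ℝ) - 1) * p)) ^ 2 * (∑ u ∈ cone H v p hp' h, phs p s (LF c (mv E u) z)) ^ 2) / (p : ℝ) ^ d := by
    rw [h3]
    exact mean_zmod d p hp' (fun z => (1 / (((p : ℝ) - 1) * p)) ^ 2 * (∑ u ∈ cone H v p hp' h, phs p s (LF c (mv E u) z)) ^ 2)
  rw [h4, ← mul_sum, div_le_iff₀ (pow_pos hp0 d)]
  have h5 := sec_second E c e he hE _ (cone_ne H v p hp' h)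
  rw [points_eq H v p hp' h, h, div_le_iff₀ hp2] at hB
  calc (1 / (((p : ℝ) - 1) * p)) ^ 2 * ∑ z : Fin d → ZMod p, (∑ u ∈ cone H v p hp' h, phs p s (LF c (mv E u) z)) ^ 2 ≤
        (1 / (((p : ℝ) - 1) * p)) ^ 2 * (((p : ℝ) - 1) * (B * (p : ℝ) ^ (s + 2) * ((p : ℝ) - 1)) * ((p : ℝ) ^ d / (p : ℝ) ^ s)) := by
        apply mul_le_mul_of_nonneg_left _ (sq_nonneg _)
        refine h5.trans ?_
        gcongr
    _ = B * (p : ℝ) ^ d := by
        have : (p : ℝ) - 1 ≠ 0 := hp2.ne'
        field_simp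
        ring

lemma new_mod {s d n : ℕ} (c : Fin d → Fin s) (E : Fin d → (Fin n → ℕ)) (m : Fin d → ℕ) (H : Finset (MvPolynomial (Fin n) (𝓞 F)))
    (v : HeightOneSpectrum (𝓞 F)) (p : ℕ) (hp' : p.Prime) (h : Ideal.absNorm v.asIdeal = p) :
    newPart c E m H v = newPart c E (fun i => m i % p) H v := by
  rw [newPart_eq c E m H v p hp' h, newPart_eq c E (fun i => m i % p) H v p hp' h]
  simp only [ZMod.natCast_mod]

end

lemma mean_sum {ι : Type} (d p : ℕ) (S : Finset ι) (f : ι → (Fin d → ℕ) → ℝ) :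
    mean d p (fun m => ∑ i ∈ S, f i m) = ∑ i ∈ S, mean d p (f i) := by
  unfold mean
  rw [sum_comm, mul_sum]

/-- **The new part of `H²` of surface sections.** Let `s` systems of monomials of degrees `e i ≥ 1` in `n` variables be given, `d` monomials together,
the monomial number `l` having the exponents `E l` and occurring in the form number `c l`, such that all the monomials `x_j ^ (e i - 1) x_j'` occur in the
form number `i`. Let a base `b ≥ 2`, integers `n₀`, `A ≥ 0`, `B`, and `δ > 0` be given. There are `a > 0` and `y₀` such that for all integers `r l`, `K l`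
(`l < d`), `y` with `2 r l ≤ K l` and `y ≥ y₀` the following holds.

Let `0 ≤ N l < b ^ K l` be arbitrary integers, prescribe for every position `j` a digit `g l j` different from the digit of
`N l` in base `b`, and let `Λ x` be for every `x` any set of at most `x ^ A` triples `(F i, H i, w i)` of a number field of degree at most `n₀`, a finite set
`H i` of homogeneous polynomials with integral coefficients in `F i`, which defines a variety `V i ⊆ ℙ ^ (n - 1)` over `F i` with
`#V i (k_v) ≤ B (N v) ^ (s + 2)` for all places `v` of degree one (this holds for all varieties of dimension `s + 2` and bounded degree), and a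
function `w i` with `|w i (v)| ≤ 1` on the finite places of `F i`.
If one chooses `r l` of the `K l` positions and replaces the digits of `N l` at these positions, then for all but at most a proportion
`1 / y ^ A` of the choices the following holds for the intersections `S_m` of the `V i` with the `s` hypersurfaces over `ℚ` with the coefficients `m l` obtained:
for all integers `x` with `y ≤ x ≤ exp (a r l)` for all `l`, all `i ∈ Λ x` and all real `τ` with `|τ| ≤ x ^ A`,
`|∑ w i (v) D_v (log N v) (N v) ^ (-i τ)| ≤ x ^ (1 / 2 + δ)`, where `D_v = (#S_m (k_v) - #V i (k_v) / (N v) ^ s) / N v` and the sum runs over the places `v` of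
`F i` of degree one with `N v ≤ x` not above `2` for which `|D_v| ≤ (N v) ^ (1 / 2)`. -/
theorem result (b s d n n₀ : ℕ) (c : Fin d → Fin s) (E : Fin d → (Fin n → ℕ)) (e : Fin s → ℕ) (hb : 2 ≤ b) (hd : 1 ≤ d)
    (he : ∀ i, 1 ≤ e i) (_hdeg : ∀ l, ∑ j, E l j = e (c l)) (hE : ∀ i j j', ∃ l, c l = i ∧ E l = Pi.single j (e i - 1) + Pi.single j' 1)
    (B : ℝ) (δ : ℝ) (hδ : 0 < δ) (A : ℕ) :
    ∃ a : ℝ, 0 < a ∧ ∃ y₀ : ℕ,
    ∀ (K r : Fin d → ℕ) (y : ℕ), (∀ l, 2 * r l ≤ K l) → y₀ ≤ y →
    ∀ N : Fin d → ℕ, (∀ l, N l < b ^ K l) → ∀ g : Fin d → ℕ → ℕ, (∀ l j, g l j < b ∧ g l j ≠ digit b j (N l)) →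
    ∀ (κ : Type) (F : κ → Type) [∀ i, Field (F i)] [∀ i, NumberField (F i)] (H : ∀ i, Finset (MvPolynomial (Fin n) (𝓞 (F i))))
      (w : ∀ i, HeightOneSpectrum (𝓞 (F i)) → ℂ) (Λ : ℕ → Finset κ),
      (∀ i v, (Ideal.absNorm v.asIdeal).Prime → points (H i) v ≤ B * (Ideal.absNorm v.asIdeal : ℝ) ^ (s + 2)) →
      (∀ i v, ‖w i v‖ ≤ 1) → (∀ x, (Λ x).card ≤ x ^ A) → (∀ x, ∀ i ∈ Λ x, finrank ℚ (F i) ≤ n₀) →
      (exceptions b K r N g (fun m => ∀ x : ℕ, y ≤ x → (∀ l, (x : ℝ) ≤ Real.exp (a * r l)) → ∀ i ∈ Λ x,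
        ∀ τ : ℝ, |τ| ≤ (x : ℝ) ^ A → ‖partialSum c E m (H i) (w i) τ x‖ ≤ (x : ℝ) ^ (1 / 2 + δ)) : ℝ) ≤
        1 / (y : ℝ) ^ A * ∏ l, ((K l).choose (r l) : ℝ) := by
  classical
  obtain ⟨B', hB'⟩ : ∃ B' : ℝ, B' = |B| + 1 := ⟨_, rfl⟩
  have hBB : B ≤ B' := by
    rw [hB']
    linarith [le_abs_self B]
  have hB1 : 1 ≤ B' := by
    rw [hB']
    linarith [abs_nonneg B]
  obtain ⟨a, ha, y₀, h⟩ := mzd_law b d hb hd (δ / 2) (by positivity) A A A
  obtain ⟨x₁, hx₁⟩ := absorb (n₀ * (4 * B')) (δ / 2) (by positivity) (by positivity)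
  refine ⟨a, ha, y₀ + x₁ + 2, fun K r y hrK hy N hN g hg κ F iF iN H w Λ hH hw hΛ hn => ?_⟩
  obtain ⟨Z, hZ⟩ : ∃ Z : ℕ → κ → ℕ → (Fin d → ℕ) → ℂ, Z = fun x i p m =>
      ∑ v ∈ (pr (F i) x).filter (fun v => Ideal.absNorm v.asIdeal = p), w i v * ((trunc (Real.sqrt p) (newPart c E m (H i) v) * Real.log p : ℝ) : ℂ) := ⟨_, rfl⟩
  have hZ1 : ∀ x, ∀ i ∈ Λ x, ∀ p ∈ op x, ∀ m, ‖Z x i p m‖ ≤ n₀ * (Real.sqrt x * (Real.log x + 1)) := by
    intro x i hi p hp' m
    rw [mem_op] at hp'
    have hp1 : (1 : ℝ) ≤ p := by exact_mod_cast hp'.2.1.one_lt.le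
    have hpx : (p : ℝ) ≤ x := by exact_mod_cast hp'.1
    have hlp : 0 ≤ Real.log p := Real.log_nonneg hp1
    have hlx : Real.log p ≤ Real.log x := Real.log_le_log (by linarith) hpx
    rw [hZ]
    refine (norm_sum_le _ _).trans ?_
    have hone : ∀ v ∈ (pr (F i) x).filter (fun v => Ideal.absNorm v.asIdeal = p),
        ‖w i v * ((trunc (Real.sqrt p) (newPart c E m (H i) v) * Real.log p : ℝ) : ℂ)‖ ≤ Real.sqrt x * (Real.log x + 1) := by
      intro v hv
      rw [norm_mul, Complex.norm_real, Real.norm_eq_abs, abs_mul, abs_of_nonneg hlp]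
      have h3 := trunc_le (Real.sqrt p) (newPart c E m (H i) v) (Real.sqrt_nonneg _)
      have h4 := hw i v
      have h5 : Real.sqrt p ≤ Real.sqrt x := Real.sqrt_le_sqrt hpx
      calc ‖w i v‖ * (|trunc (Real.sqrt p) (newPart c E m (H i) v)| * Real.log p) ≤ 1 * (Real.sqrt x * (Real.log x + 1)) := by
            gcongr
            · exact h3.trans h5
            · linarith
        _ = _ := one_mul _
    refine (sum_le_sum hone).trans ?_
    rw [sum_const, nsmul_eq_mul]
    have h5 : (((pr (F i) x).filter (fun v => Ideal.absNorm v.asIdeal = p)).card : ℝ) ≤ n₀ := by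
      exact_mod_cast (card_fiber_le (F := F i) x p hp'.2.1).trans (hn x i hi)
    have h6 : 0 ≤ Real.log x := hlp.trans hlx
    gcongr
  have hcard : ∀ x, ∀ i ∈ Λ x, ∀ p ∈ op x, (((pr (F i) x).filter (fun v => Ideal.absNorm v.asIdeal = p)).card : ℝ) ≤ n₀ := by
    intro x i hi p hp'
    rw [mem_op] at hp'
    exact_mod_cast (card_fiber_le (F := F i) x p hp'.2.1).trans (hn x i hi)
  have hv2 : ∀ x, ∀ i ∈ Λ x, ∀ p ∈ op x, ∀ v ∈ (pr (F i) x).filter (fun v => Ideal.absNorm v.asIdeal = p),
      mean d p (fun m => newPart c E m (H i) v ^ 2) ≤ B' := by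
    intro x i hi p hp' v hv
    rw [mem_op] at hp'
    rw [mem_filter] at hv
    have := mean_new_sq c E e he hE (H i) v p hp'.2.1 hv.2 B (hH i v (by rw [hv.2]; exact hp'.2.1))
    exact this.trans hBB
  have htr : ∀ x, ∀ i ∈ Λ x, ∀ p ∈ op x, ∀ v ∈ (pr (F i) x).filter (fun v => Ideal.absNorm v.asIdeal = p),
      |mean d p (fun m => trunc (Real.sqrt p) (newPart c E m (H i) v))| ≤ B' / Real.sqrt p := by
    intro x i hi p hp' v hv
    have h2 := hv2 x i hi p hp' v hv
    rw [mem_op] at hp'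
    rw [mem_filter] at hv
    have hp0 : (0 : ℝ) < p := by exact_mod_cast hp'.2.1.pos
    exact mean_trunc d p _ (Real.sqrt p) B' (Real.sqrt_pos.2 hp0) (mean_new c E e he hE (H i) v p hp'.2.1 hv.2) h2
  have h2 := h K r y hrK (by omega) N hN g hg κ Λ (fun x _ => hΛ x) Z (by
      intro x i p m hp'
      rw [hZ]
      simp only
      apply sum_congr rfl
      intro v hv
      rw [mem_filter] at hv
      rw [new_mod c E m (H i) v p hp' hv.2]) (fun x i => n₀ * (4 * B') * (Real.sqrt x * (Real.log x + 1))) (by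
      intro x hx i _
      have : 0 ≤ Real.log x := Real.log_natCast_nonneg x
      positivity) ?_ ?_ ?_
    (fun m => ∀ x : ℕ, y ≤ x → (∀ l, (x : ℝ) ≤ Real.exp (a * r l)) → ∀ i ∈ Λ x,
        ∀ τ : ℝ, |τ| ≤ (x : ℝ) ^ A → ‖partialSum c E m (H i) (w i) τ x‖ ≤ (x : ℝ) ^ (1 / 2 + δ)) ?_
  · unfold exceptions
    exact h2
  · -- the bound
    intro x hx i hi p hp' m
    refine (hZ1 x i hi p hp' m).trans ?_
    have hlx0 : 0 ≤ Real.log x := Real.log_natCast_nonneg x
    have h5 : (0 : ℝ) ≤ n₀ * (Real.sqrt x * (Real.log x + 1)) := by positivity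
    calc (n₀ : ℝ) * (Real.sqrt x * (Real.log x + 1)) ≤ (n₀ * (Real.sqrt x * (Real.log x + 1))) * (4 * B') := le_mul_of_one_le_right h5 (by linarith)
      _ = _ := by ring
  · -- the means
    intro x hx i hi
    have hlx0 : 0 ≤ Real.log x := Real.log_natCast_nonneg x
    have hone : ∀ p ∈ op x, |mean d p (fun m => (Z x i p m).re)| + |mean d p (fun m => (Z x i p m).im)| ≤
        (2 * n₀ * B' * (Real.log x + 1)) * (1 / Real.sqrt p) := by
      intro p hp'
      have hp'' := hp'
      rw [mem_op] at hp'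
      have hp1 : (1 : ℝ) ≤ p := by exact_mod_cast hp'.2.1.one_lt.le
      have hpx : (p : ℝ) ≤ x := by exact_mod_cast hp'.1
      have hlp : 0 ≤ Real.log p := Real.log_nonneg hp1
      have hlx : Real.log p ≤ Real.log x := Real.log_le_log (by linarith) hpx
      have gen : ∀ f : HeightOneSpectrum (𝓞 (F i)) → ℝ, (∀ v, |f v| ≤ 1) →
          |mean d p (fun m => ∑ v ∈ (pr (F i) x).filter (fun v => Ideal.absNorm v.asIdeal = p), (f v * Real.log p) * trunc (Real.sqrt p) (newPart c E m (H i) v))| ≤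
            n₀ * ((Real.log x + 1) * (B' / Real.sqrt p)) := by
        intro f hf1
        rw [mean_sum]
        refine (abs_sum_le_sum_abs _ _).trans ?_
        have hone : ∀ v ∈ (pr (F i) x).filter (fun v => Ideal.absNorm v.asIdeal = p),
            |mean d p (fun m => (f v * Real.log p) * trunc (Real.sqrt p) (newPart c E m (H i) v))| ≤ (Real.log x + 1) * (B' / Real.sqrt p) := by
          intro v hv
          rw [mean_mul, abs_mul, abs_mul, abs_of_nonneg hlp]
          have h3 := htr x i hi p hp'' v hv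
          calc |f v| * Real.log p * |mean d p (fun m => trunc (Real.sqrt p) (newPart c E m (H i) v))| ≤ 1 * (Real.log x + 1) * (B' / Real.sqrt p) := by
                gcongr
                · exact hf1 v
                · linarith
            _ = _ := by ring
        refine (sum_le_sum hone).trans ?_
        rw [sum_const, nsmul_eq_mul]
        have h4 := hcard x i hi p hp''
        gcongr
      have e1 : (fun m : Fin d → ℕ => (Z x i p m).re) = fun m => ∑ v ∈ (pr (F i) x).filter (fun v => Ideal.absNorm v.asIdeal = p),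
          ((w i v).re * Real.log p) * trunc (Real.sqrt p) (newPart c E m (H i) v) := by
        funext m
        rw [hZ]
        simp only
        rw [Complex.re_sum]
        apply sum_congr rfl
        intro v _
        rw [Complex.re_mul_ofReal]
        ring
      have e2 : (fun m : Fin d → ℕ => (Z x i p m).im) = fun m => ∑ v ∈ (pr (F i) x).filter (fun v => Ideal.absNorm v.asIdeal = p),
          ((w i v).im * Real.log p) * trunc (Real.sqrt p) (newPart c E m (H i) v) := by
        funext m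
        rw [hZ]
        simp only
        rw [Complex.im_sum]
        apply sum_congr rfl
        intro v _
        rw [Complex.im_mul_ofReal]
        ring
      rw [e1, e2]
      have g1 := gen (fun v => (w i v).re) (fun v => (Complex.abs_re_le_norm _).trans (hw i v))
      have g2 := gen (fun v => (w i v).im) (fun v => (Complex.abs_im_le_norm _).trans (hw i v))
      calc _ ≤ n₀ * ((Real.log x + 1) * (B' / Real.sqrt p)) + n₀ * ((Real.log x + 1) * (B' / Real.sqrt p)) := add_le_add g1 g2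
        _ = _ := by ring
    refine (sum_le_sum hone).trans ?_
    rw [← mul_sum]
    calc (2 * n₀ * B' * (Real.log x + 1)) * ∑ p ∈ op x, 1 / Real.sqrt p ≤ (2 * n₀ * B' * (Real.log x + 1)) * (2 * Real.sqrt x) := by
          apply mul_le_mul_of_nonneg_left (sum_inv_sqrt x)
          positivity
      _ = _ := by ring
  · -- the variance
    intro x hx i hi
    have hx0 : (0 : ℝ) ≤ x := Nat.cast_nonneg x
    have hlx0 : 0 ≤ Real.log x := Real.log_natCast_nonneg x
    have hone : ∀ p ∈ op x, mean d p (fun m => ‖Z x i p m‖ ^ 2) ≤ (n₀ * (Real.log x + 1)) ^ 2 * B' := by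
      intro p hp'
      have hp'' := hp'
      rw [mem_op] at hp'
      have hp1 : (1 : ℝ) ≤ p := by exact_mod_cast hp'.2.1.one_lt.le
      have hpx : (p : ℝ) ≤ x := by exact_mod_cast hp'.1
      have hlp : 0 ≤ Real.log p := Real.log_nonneg hp1
      have hlx : Real.log p ≤ Real.log x := Real.log_le_log (by linarith) hpx
      have h4 := hcard x i hi p hp''
      have h3 : ∀ m, ‖Z x i p m‖ ^ 2 ≤ ∑ v ∈ (pr (F i) x).filter (fun v => Ideal.absNorm v.asIdeal = p),
          (n₀ * (Real.log x + 1) ^ 2) * newPart c E m (H i) v ^ 2 := by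
        intro m
        have h5 : ‖Z x i p m‖ ≤ ∑ v ∈ (pr (F i) x).filter (fun v => Ideal.absNorm v.asIdeal = p), (Real.log x + 1) * |newPart c E m (H i) v| := by
          rw [hZ]
          refine (norm_sum_le _ _).trans (sum_le_sum (fun v _ => ?_))
          rw [norm_mul, Complex.norm_real, Real.norm_eq_abs, abs_mul, abs_of_nonneg hlp]
          have h6 : |trunc (Real.sqrt p) (newPart c E m (H i) v)| ≤ |newPart c E m (H i) v| := sq_le_sq.1 (trunc_sq _ _)
          have h7 := hw i v
          calc ‖w i v‖ * (|trunc (Real.sqrt p) (newPart c E m (H i) v)| * Real.log p) ≤ 1 * (|newPart c E m (H i) v| * (Real.log x + 1)) := by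
                gcongr
                linarith
            _ = _ := by ring
        have h8 := sq_sum_le_card_mul_sum_sq (s := (pr (F i) x).filter (fun v => Ideal.absNorm v.asIdeal = p)) (f := fun v => (Real.log x + 1) * |newPart c E m (H i) v|)
        calc ‖Z x i p m‖ ^ 2 ≤ (∑ v ∈ (pr (F i) x).filter (fun v => Ideal.absNorm v.asIdeal = p), (Real.log x + 1) * |newPart c E m (H i) v|) ^ 2 :=
              pow_le_pow_left₀ (norm_nonneg _) h5 2
          _ ≤ _ := h8
          _ ≤ n₀ * ∑ v ∈ (pr (F i) x).filter (fun v => Ideal.absNorm v.asIdeal = p), ((Real.log x + 1) * |newPart c E m (H i) v|) ^ 2 :=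
              mul_le_mul_of_nonneg_right h4 (sum_nonneg (fun _ _ => sq_nonneg _))
          _ = _ := by
              rw [mul_sum]
              apply sum_congr rfl
              intro v _
              rw [mul_pow, sq_abs]
              ring
      refine (mean_mono d p _ _ h3).trans ?_
      rw [mean_sum]
      have h9 : ∀ v ∈ (pr (F i) x).filter (fun v => Ideal.absNorm v.asIdeal = p),
          mean d p (fun m => (n₀ * (Real.log x + 1) ^ 2) * newPart c E m (H i) v ^ 2) ≤ (n₀ * (Real.log x + 1) ^ 2) * B' := by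
        intro v hv
        rw [mean_mul]
        exact mul_le_mul_of_nonneg_left (hv2 x i hi p hp'' v hv) (by positivity)
      refine (sum_le_sum h9).trans ?_
      rw [sum_const, nsmul_eq_mul]
      calc (((pr (F i) x).filter (fun v => Ideal.absNorm v.asIdeal = p)).card : ℝ) * ((n₀ * (Real.log x + 1) ^ 2) * B') ≤
            n₀ * ((n₀ * (Real.log x + 1) ^ 2) * B') := mul_le_mul_of_nonneg_right h4 (by positivity)
        _ = _ := by ring
    refine (sum_le_sum hone).trans ?_
    rw [sum_const, nsmul_eq_mul]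
    have hsx : Real.sqrt x * Real.sqrt x = x := Real.mul_self_sqrt hx0
    calc ((op x).card : ℝ) * ((n₀ * (Real.log x + 1)) ^ 2 * B') ≤ x * ((n₀ * (Real.log x + 1)) ^ 2 * B') :=
          mul_le_mul_of_nonneg_right (cardop_le x) (by positivity)
      _ ≤ x * ((n₀ * (Real.log x + 1)) ^ 2 * (16 * (B' * B'))) := by
          have h10 : B' ≤ 16 * (B' * B') := by nlinarith
          gcongr
      _ = (Real.sqrt x * Real.sqrt x) * ((n₀ * (Real.log x + 1)) ^ 2 * (16 * (B' * B'))) := by rw [hsx]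
      _ = _ := by ring
  · -- the conclusion
    intro m hm x hyx hxr i hi τ hτ
    have hx2 : 2 ≤ x := by omega
    have hx0 : (0 : ℝ) < x := by exact_mod_cast (by omega : 0 < x)
    have hx1 : (1 : ℝ) ≤ x := by exact_mod_cast (by omega : 1 ≤ x)
    have hlx0 : 0 ≤ Real.log x := Real.log_natCast_nonneg x
    have e1 : partialSum c E m (H i) (w i) τ x = ∑ p ∈ op x, Z x i p m * hp τ p := by
      obtain ⟨T, hT⟩ : ∃ T : HeightOneSpectrum (𝓞 (F i)) → ℂ, T = fun v => w i v * ((newPart c E m (H i) v * Real.log (Ideal.absNorm v.asIdeal) : ℝ) : ℂ) *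
        Complex.exp (((-(τ * Real.log (Ideal.absNorm v.asIdeal)) : ℝ) : ℂ) * Complex.I) := ⟨_, rfl⟩
      have e2 : partialSum c E m (H i) (w i) τ x = ∑ v ∈ (pr (F i) x).filter (fun v => (Ideal.absNorm v.asIdeal).Prime ∧
          |newPart c E m (H i) v| ≤ Real.sqrt (Ideal.absNorm v.asIdeal)), T v := by
        unfold partialSum
        rw [hT]
        apply finsum_mem_eq_sum_of_inter_support_eq
        congr 1
        ext v
        rw [Set.mem_setOf_eq, mem_coe, mem_filter, mem_pr]
      rw [e2, ← sum_fiberwise_of_maps_to (g := fun v : HeightOneSpectrum (𝓞 (F i)) => Ideal.absNorm v.asIdeal) (t := op x)]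
      · apply sum_congr rfl
        intro p hp'
        rw [mem_op] at hp'
        rw [hZ, sum_mul, filter_filter]
        have e3 : ∀ v ∈ (pr (F i) x).filter (fun v => Ideal.absNorm v.asIdeal = p),
            w i v * ((trunc (Real.sqrt p) (newPart c E m (H i) v) * Real.log p : ℝ) : ℂ) * hp τ p =
              if |newPart c E m (H i) v| ≤ Real.sqrt p then T v else 0 := by
          intro v hv
          rw [mem_filter] at hv
          unfold trunc
          rw [hT]
          simp only
          rw [hv.2]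
          unfold Pool.Agent.X22.ND.hp
          split_ifs
          · rfl
          · simp
        rw [sum_congr rfl e3, ← sum_filter, filter_filter]
        apply sum_congr _ (fun _ _ => rfl)
        apply filter_congr
        intro v _
        constructor
        · rintro ⟨⟨h3, h4⟩, h5⟩
          rw [h5] at h4
          exact ⟨h5, h4⟩
        · rintro ⟨h3, h4⟩
          rw [h3]
          exact ⟨⟨hp'.2.1, h4⟩, rfl⟩
      · intro v hv
        rw [mem_filter, mem_pr] at hv
        rw [mem_op]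
        exact ⟨hv.1.1, hv.2.1, two_notMem hv.1.2 (Ideal.absNorm_mem v.asIdeal)⟩
    have h4 := hm x hyx hxr i hi τ hτ
    have h6 := hx₁ x (by omega)
    have hpow : (x : ℝ) ^ (1 / 2 + δ) = Real.sqrt x * ((x : ℝ) ^ (δ / 2) * (x : ℝ) ^ (δ / 2)) := by
      rw [← Real.rpow_add hx0, Real.sqrt_eq_rpow, ← Real.rpow_add hx0]
      congr 1
      ring
    rw [e1]
    calc ‖∑ p ∈ op x, Z x i p m * hp τ p‖ ≤ n₀ * (4 * B') * (Real.sqrt x * (Real.log x + 1)) * (x : ℝ) ^ (δ / 2) := h4
      _ = Real.sqrt x * ((n₀ * (4 * B') * (Real.log x + 1)) * (x : ℝ) ^ (δ / 2)) := by ring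
      _ ≤ Real.sqrt x * ((x : ℝ) ^ (δ / 2) * (x : ℝ) ^ (δ / 2)) := by gcongr
      _ = _ := hpow.symm

end Pool.Agent.Results.MP_1f4fc7_nt.FewDigitSections
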