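import Pool.Agent.X298.HC.KNorm

/-!
# The pole of `L₂` at `s = 2` for products with varieties whose Albanese variety has potential CM

`X` is an arbitrary smooth projective variety over a number field `K` (for example `K = ℚ`), `A` is a
factor of its Albanese variety with potential complex multiplication, for example the largest one, or
`A = 0`, and `Y` runs through the smooth projective varieties over `K` whose Albanese variety has
potential complex multiplication.  For these the Frobenius elements act on `H¹(A)` and on `H¹(Y)` with the
traces `q_v^{1/2} Tr κ`, `q_v^{1/2} Tr ρ` for virtual representations `κ` and `ρ` of the Weil group of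
`K` (integral combinations of representations `Ind ψ N^{-iτ}`, `ψ` a Hecke character of a finite
extension), and the intertwining number `κ.inter ρ` is the rank of `Hom(A, Alb Y)`.

The group `NS(X × Y)` has the rank `rank NS(X) + rank NS(Y) + rank Hom(Alb X, Alb Y)`.  If `A` is the
largest potentially CM factor of `Alb X`, then `rank Hom(Alb X, Alb Y) = rank Hom(A, Alb Y)`, and
Tate's conjecture says that the orders `r` of the poles of `L₂(s)` at `s = 2` satisfy
`r(X × Y) = r(X) + r(Y) + rank Hom(A, Alb Y)`.

The number `R` (`RestMoment`) is `(b₁(X) - 2 dim A)²`, or the order of the pole of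
`L(H¹(B) ⊗ H¹(B), s)` at `s = 2` for `Alb X` isogenous to `A × B`, which should be the rank of
`End(B)`.

The definitions are in `Pool.Agent.X298.HC.Defs` (`HeckeChar`: unitary Hecke characters),
`Pool.Agent.X298.HC.BC`, `Pool.Agent.X298.HC.PDefs`, `Pool.Agent.X298.HC.MDefs` (`Virt`: virtual
representations, `Virt.inter`: intertwining numbers), `Pool.Agent.X298.HC.H2Defs`,
`Pool.Agent.X298.HC.KDefs` and `Pool.Agent.W353.EF.Defs`, `Pool.Agent.W353.EH.Defs`.
-/

set_option autoImplicit false

namespace Pool.Agent.Results.MP_1f4fc7_nt.PotentiallyCMAlbanese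

open NumberField IsDedekindDomain Filter Topology Polynomial Pool.Agent.X298.HC

/-- **Tate's formula for products with varieties with potentially CM Albanese variety.**  Let `X` be a
projective variety of dimension `d ≥ 1` over a number field `K`, with Betti numbers `N₁`, `N₂`, let `κ`
be given by a part of `H¹(X)`, for example `κ = 0`, and let `R` be as above.

0. For `Y` as above `0 ≤ ρ.inter ρ ≤ b₁(Y)²`.

1. (`AlbGram`)  Let `Y_k` be finitely many such varieties, `c_k` real, `h_k = κ.inter ρ_k` and
`h_kl = ρ_k.inter ρ_l`.  For the orders of the poles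
`(∑ c_k (r(X × Y_k) - r(X) - r(Y_k) - h_k))² ≤ R ∑ c_k c_l h_kl`, if there are continuations; without
any continuation the same holds, up to `η`, for the quotients `log |L₂(2 + ε)| / log(1/ε)` instead of
the orders, for all small `ε > 0`.

2. (`AlbExceptional`)  For every `r` there are at most `r R` exceptional varieties `Y_s` such that for
all `Y` with `ρ.inter ρ ≤ r` (the rank of `End(Alb Y)`, at most `b₁(Y)²`) and `ρ.inter ρ_s = 0` (the
rank of `Hom(Alb Y, Alb Y_s)`) for all `s`, the formula `r(X × Y) = r(X) + r(Y) + κ.inter ρ` holds, and
without any continuation the difference of the quotients differs from `κ.inter ρ` by less than one for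
arbitrarily small `ε > 0`.

3. (`AlbMonomial`)  If all `L(H¹(X) ⊗ π, s)`, `π` monomial and irreducible, have continuations to
`s = 3/2`, then there is a set of at most `R` representations `π` such that the formula holds for all
`Y` with `ρ` composed of monomial irreducible representations not in the set (no bound for the number
of these), and the difference of the quotients tends to `κ.inter ρ`. -/
theorem result {K : Type} [Field K] [NumberField K] {n : ℕ}
    (X : Set (MvPolynomial (Fin n) (𝓞 K))) (d N₁ N₂ R : ℕ) (κ : Virt K) (hd : 1 ≤ d)
    (hR : RestMoment X d 1 N₁ κ R) :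
    (∀ D : AlbData X d N₁ N₂, 0 ≤ D.ρ.inter D.ρ ∧ D.ρ.inter D.ρ ≤ (D.M₁ : ℤ) ^ 2) ∧
    AlbGram X d N₁ N₂ R κ ∧
    (∀ r : ℕ, AlbExceptional X d N₁ N₂ R κ r) ∧
    (Continuations1 X d N₁ → AlbMonomial X d N₁ N₂ R κ) :=
  ⟨fun D => ⟨inter_self_nonneg D.ρ, pot1_norm D.pot⟩, alb_gram hd hR,
    fun r => alb_exceptional hd hR r, fun H => alb_monomial hd hR H⟩

end Pool.Agent.Results.MP_1f4fc7_nt.PotentiallyCMAlbanese
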