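import Pool.Agent.X298.HC.LMain

/-!
# The pole of `L₂` at `s = 2` for products with varieties over large extensions

`X` is an arbitrary projective variety over a number field `K` (for instance over `ℚ`), of dimension at
least one, with Betti numbers `N₁`, `N₂`.  `E` runs over the finite extensions of `K`, and `Y` over the
varieties over `E` whose Albanese variety has potential complex multiplication; `r(X_E × Y)`, `r(X_E)` and
`r(Y)` are the orders of the poles of `L₂` at `s = 2` over `E`.  The conjecture of Tate predicts
`r(X_E × Y) = r(X_E) + r(Y) + h`, where `h` is the rank of `Hom(Alb X_E, Alb Y)`.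

The theorems of `PotentiallyCMAlbanese` (varieties `Y` over `K` itself) had finite exceptional sets.  Here
there are no exceptions: the formula holds as soon as the representation of the Weil group of `K` induced
from the one on `H^1(Y)` has few nonzero traces, in particular if `E` contains a Galois extension `F` of
`K` of large degree and `Alb Y` has few homomorphisms to its conjugates.
-/

set_option autoImplicit false

namespace Pool.Agent.Results.MP_1f4fc7_nt.ProductsOverExtensions

open NumberField IsDedekindDomain Filter Topology Polynomial Pool.Agent.X298.HC

/-- **Products with varieties over large extensions.**  Let `X` be a projective variety of dimension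
`d ≥ 1` over the number field `K` and `κ` a virtual representation of the Weil group of `K` whose dual is
a part of `H^1(X)` (for instance the one for the largest quotient `A` of `Alb X` with potential complex
multiplication, or `κ = 0`).

1. Let `s` be the dimension of the rest of `H^1(X)` and `A` a set of primes of `K` of upper Dirichlet
density at most `δ`.  Put `R = s² δ`.  Then `AlbSparseAll X d N₁ N₂ κ A R` holds, that is, for the pairs
`(E, Y)` such that the trace of `Ind ρ` is zero at almost all primes outside `A`, where `ρ` is the
representation of the Weil group of `E` for `H^1(Y)` and `Ind ρ` the induced representation of the Weil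
group of `K`, with `h` the intertwining number of `κ` and `Ind ρ` and `q` the one of `Ind ρ` with itself:

* if `R q < 1`, then `r(X_E × Y) = r(X_E) + r(Y) + h`, if the `L`-functions have meromorphic
continuations to neighbourhoods of `s = 2`; without continuations the difference of the quotients
`log |L₂(2 + ε)| / log(1/ε)` differs from `h` by at most `c < 1` for all small `ε > 0`;
* for finitely many such pairs and real `c_k`, with `m_k = r(X × Y_k) - r(X) - r(Y_k)`:
`(∑ c_k (m_k - h_k))² ≤ R ∑ c_k c_l q_kl`, and the same without continuations, up to `η`;
* for all `r` and `k ≥ 1` there are at most `k² r R` exceptional pairs, such that the formula holds, and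
without continuations the difference of the quotients differs from `h` by less than `1/k` for
arbitrarily small `ε`, for all such pairs with `q ≤ r` orthogonal to the exceptional ones.

2. Let `F` be a Galois extension of `K`, and `A` the set of the primes of `K` with a prime of `F` of the
same norm above them.  The condition on the traces holds for `A` for all `(E, Y)` such that `E` contains
`F`; and `AlbSparseAll X d N₁ N₂ κ A R` holds with `R = s²/[F : K]`, and if `κ = 0` also with
`R = r/[F : K]`, `r` the order of the pole of `L(H^1(X_F) ⊗ H^1(X_F), s)` at `s = 2`. -/
theorem result (K : Type) [Field K] [NumberField K] {n : ℕ}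
    (X : Set (MvPolynomial (Fin n) (𝓞 K))) (d N₁ N₂ : ℕ) (hd : 1 ≤ d) (κ : Virt K) :
    (∀ (s : ℕ) (A : Set (HeightOneSpectrum (𝓞 K))) (δ : ℝ), 0 ≤ δ → IsPart X d 1 N₁ s κ →
      DensityLE A δ → AlbSparseAll X d N₁ N₂ κ A (s ^ 2 * δ)) ∧
    ∀ (F : Type) [Field F] [NumberField F] [Algebra K F] [IsGalois K F],
      (∀ D : AlbDataOver X d N₁ N₂, Nonempty (F →ₐ[K] D.E) →
        D.SupportedOn (splitPrimes K F)) ∧
      ∀ R : ℕ, RestMomentOver X d N₁ κ F R →
        AlbSparseAll X d N₁ N₂ κ (splitPrimes K F) (R / Module.finrank K F) :=
  large_main K X d N₁ N₂ hd κ

end Pool.Agent.Results.MP_1f4fc7_nt.ProductsOverExtensions
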